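import Pool.Agent.H8.TD.Targets

/-!
# MP_ccfdad_ag, board n3_modules: row BZ1 (the intersection numbers of linear forms)
-/

set_option autoImplicit false

open MvPolynomial
open Pool.Agent.H12.ZD (pmap v O Res DenseOrbit NoInv)
open Pool.Agent.H18.HIT
open Pool.Agent.H8.ZA (HFam Const NA sz)
open Pool.Agent.H8.TD

namespace Pool.Agent.H41.TD

section

variable {k : Type} [Field k]

/-- the coordinates generate the field -/
theorem top_of_xx (E : IntermediateField k (K3 k)) (h : ∀ i, xx k i ∈ E) : E = ⊤ := by
  rw [eq_top_iff]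
  intro z _
  obtain ⟨a, b, hb, rfl⟩ := IsFractionRing.div_surjective (A := Po 3 k) z
  have h1 : ∀ p : Po 3 k, algebraMap (Po 3 k) (K3 k) p ∈ E := by
    intro p
    induction p using MvPolynomial.induction_on with
    | C c =>
      have : algebraMap (Po 3 k) (K3 k) (C c) = algebraMap k (K3 k) c := by
        rw [← MvPolynomial.algebraMap_eq, ← IsScalarTower.algebraMap_apply]
      rw [this]
      exact E.algebraMap_mem c
    | add p q hp hq =>
      rw [map_add]
      exact E.add_mem hp hq
    | mul_X p i hp =>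
      rw [map_mul]
      exact E.mul_mem hp (h i)
  exact E.div_mem (h1 a) (h1 b)

/-- three linear forms which satisfy a linear relation generate a small field -/
theorem not_fin (w : Fin 3 → K3 k) (i0 : Fin 3)
    (hi : w i0 ∈ IntermediateField.adjoin k (w '' {i | i ≠ i0})) :
    Module.finrank (IntermediateField.adjoin k (Set.range w)) (K3 k) = 0 := by
  classical
  by_contra hne
  have hE : IntermediateField.adjoin k (Set.range w) =
      IntermediateField.adjoin k (w '' {i | i ≠ i0}) := by
    apply le_antisymm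
    · rw [IntermediateField.adjoin_le_iff]
      rintro _ ⟨i, rfl⟩
      by_cases h : i = i0
      · rw [h]
        exact hi
      · exact IntermediateField.subset_adjoin _ _ ⟨i, h, rfl⟩
    · exact IntermediateField.adjoin.mono _ _ _ (Set.image_subset_range _ _)
  rw [hE] at hne
  have hfin : Module.Finite (IntermediateField.adjoin k (w '' {i | i ≠ i0})) (K3 k) :=
    Module.finite_of_finrank_pos (Nat.pos_of_ne_zero hne)
  have halg : Algebra.IsAlgebraic (IntermediateField.adjoin k (w '' {i | i ≠ i0})) (K3 k) :=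
    inferInstance
  have halg2 : Algebra.IsAlgebraic (Algebra.adjoin k (w '' {i | i ≠ i0})) (K3 k) := by
    open scoped IntermediateField.algebraAdjoinAdjoin in
    exact (IsFractionRing.comap_isAlgebraic_iff (A := Algebra.adjoin k (w '' {i | i ≠ i0}))
      (K := IntermediateField.adjoin k (w '' {i | i ≠ i0})) (C := K3 k)).2 halg
  have h1 : Algebra.trdeg k (K3 k) ≤ Cardinal.mk (w '' {i | i ≠ i0}) :=
    Algebra.IsAlgebraic.trdeg_le_cardinalMk k (w '' {i | i ≠ i0})
  have h2 : Cardinal.mk (w '' {i | i ≠ i0}) ≤ 2 := by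
    refine Cardinal.mk_image_le.trans ?_
    have h3 : Fintype.card {i : Fin 3 // i ≠ i0} = 2 := by
      rw [Fintype.card_subtype_compl, Fintype.card_subtype_eq]
      rfl
    have h4 : Cardinal.mk {i : Fin 3 // i ≠ i0} = 2 := by
      rw [Cardinal.mk_fintype, h3]
      rfl
    exact h4.le
  have h3 : AlgebraicIndependent k (xx k) := by
    have h4 : AlgebraicIndependent k (X : Fin 3 → Po 3 k) := MvPolynomial.algebraicIndependent_X _ _
    have h5 := h4.map' (f := IsScalarTower.toAlgHom k (Po 3 k) (K3 k))
      (IsFractionRing.injective (Po 3 k) (K3 k))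
    exact h5
  have h4 := h3.cardinalMk_le_trdeg
  rw [Cardinal.mk_fin] at h4
  have h5 := (h4.trans h1).trans h2
  have h6 : ((3 : ℕ) : Cardinal) ≤ ((2 : ℕ) : Cardinal) := h5
  rw [Nat.cast_le] at h6
  omega

end

theorem pf_BZ1 : T_BZ1 := by
  intro k _ s s' s''
  classical
  obtain ⟨M, hM⟩ : ∃ M : Matrix (Fin 3) (Fin 3) k, M = ![s, s', s''] := ⟨_, rfl⟩
  obtain ⟨w, hw⟩ : ∃ w : Fin 3 → K3 k, ∀ i, w i = lc (M i) (xx k) := ⟨_, fun _ => rfl⟩
  have hset : ({lc s (xx k), lc s' (xx k), lc s'' (xx k)} : Set (K3 k)) = Set.range w := by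
    ext z
    simp only [Set.mem_insert_iff, Set.mem_singleton_iff, Set.mem_range]
    constructor
    · rintro (h | h | h)
      · exact ⟨0, by rw [hw, hM, h]; rfl⟩
      · exact ⟨1, by rw [hw, hM, h]; rfl⟩
      · exact ⟨2, by rw [hw, hM, h]; rfl⟩
    · rintro ⟨i, rfl⟩
      fin_cases i
      · left; rw [hw, hM]; rfl
      · right; left; rw [hw, hM]; rfl
      · right; right; rw [hw, hM]; rfl
  unfold dg
  rw [hset]
  by_cases hdet : M.det = 0
  · obtain ⟨c, hc0, hc⟩ := Matrix.exists_vecMul_eq_zero_iff.2 hdet
    obtain ⟨i0, hi0⟩ := Function.ne_iff.1 hc0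
    have hrel : ∑ i, c i • w i = 0 := by
      have h1 : ∀ i, c i • w i = ∑ j, (c i * M i j) • xx k j := by
        intro i
        rw [hw, lc, Finset.smul_sum]
        exact Finset.sum_congr rfl fun j _ => by rw [smul_smul]
      rw [Finset.sum_congr rfl fun i _ => h1 i, Finset.sum_comm]
      refine Finset.sum_eq_zero fun j _ => ?_
      rw [← Finset.sum_smul]
      have h2 : ∑ i, c i * M i j = 0 := congr_fun hc j
      rw [h2, zero_smul]
    rw [not_fin w i0]
    · exact Nat.zero_le _
    · have h1 : w i0 = ∑ i ∈ Finset.univ.erase i0, (-(c i0)⁻¹ * c i) • w i := by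
        rw [← Finset.add_sum_erase _ _ (Finset.mem_univ i0)] at hrel
        have h2 : w i0 = (c i0)⁻¹ • c i0 • w i0 := by
          rw [smul_smul, inv_mul_cancel₀ hi0, one_smul]
        rw [h2, eq_neg_of_add_eq_zero_left hrel, smul_neg, Finset.smul_sum,
          ← Finset.sum_neg_distrib]
        refine Finset.sum_congr rfl fun i _ => ?_
        rw [smul_smul, neg_mul, neg_smul]
      rw [h1]
      refine sum_mem fun i hi => ?_
      refine IntermediateField.smul_mem _ ?_
      exact IntermediateField.subset_adjoin _ _ ⟨i, (Finset.mem_erase.1 hi).1, rfl⟩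
  · have htop : IntermediateField.adjoin k (Set.range w) = ⊤ := by
      apply top_of_xx
      intro j
      have h1 : xx k j = ∑ i, M⁻¹ j i • w i := by
        have h2 : ∀ i, M⁻¹ j i • w i = ∑ l, (M⁻¹ j i * M i l) • xx k l := by
          intro i
          rw [hw, lc, Finset.smul_sum]
          exact Finset.sum_congr rfl fun l _ => by rw [smul_smul]
        rw [Finset.sum_congr rfl fun i _ => h2 i, Finset.sum_comm]
        have h3 : ∀ l, ∑ i, (M⁻¹ j i * M i l) • xx k l = (1 : Matrix (Fin 3) (Fin 3) k) j l •
            xx k l := by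
          intro l
          rw [← Finset.sum_smul, ← Matrix.nonsing_inv_mul M (isUnit_iff_ne_zero.2 hdet)]
          rfl
        rw [Finset.sum_congr rfl fun l _ => h3 l, Finset.sum_eq_single j]
        · rw [Matrix.one_apply_eq, one_smul]
        · intro l _ hl
          rw [Matrix.one_apply_ne hl.symm, zero_smul]
        · intro h
          exact absurd (Finset.mem_univ j) h
      rw [h1]
      refine sum_mem fun i _ => ?_
      refine IntermediateField.smul_mem _ ?_
      exact IntermediateField.subset_adjoin _ _ ⟨i, rfl⟩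
    rw [htop, IntermediateField.finrank_top]

end Pool.Agent.H41.TD
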